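import Mathlib
import Pool.Agent.H845Z.BSAm

/-!
For every `n ≥ 2` the group `H_n = ⟨s, u, b ∣ s⁻¹ u s = u ^ n, u⁻¹ b u = b ^ n⟩` is not stable in
permutations.
-/

set_option autoImplicit false

namespace Pool.Agent.Results.MP_5939ed_al.ANotStableAllN

/-- The normalised Hamming distance on `Sym(N)`. -/
noncomputable def hamming {N : ℕ} (σ τ : Equiv.Perm (Fin N)) : ℝ :=
  ((Finset.univ.filter (fun i => σ i ≠ τ i)).card : ℝ) / N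

/-- Stability in permutations of the presentation
`⟨s, u, b ∣ s⁻¹ u s u ^ (-n), u⁻¹ b u b ^ (-n)⟩` of `H_n`. -/
def Stable (n : ℕ) : Prop :=
  ∀ ε : ℝ, 0 < ε → ∃ δ : ℝ, 0 < δ ∧ ∀ N : ℕ, 0 < N → ∀ s u b : Equiv.Perm (Fin N),
    hamming (s⁻¹ * u * s * (u ^ n)⁻¹) 1 < δ → hamming (u⁻¹ * b * u * (b ^ n)⁻¹) 1 < δ →
    ∃ s' u' b' : Equiv.Perm (Fin N),
      s'⁻¹ * u' * s' * (u' ^ n)⁻¹ = 1 ∧ u'⁻¹ * b' * u' * (b' ^ n)⁻¹ = 1 ∧
      hamming s s' < ε ∧ hamming u u' < ε ∧ hamming b b' < ε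

open Pool.Agent.H845Z.Ham in
theorem result : ∀ n : ℕ, 2 ≤ n → ¬ Stable n := by
  intro n hn h
  obtain ⟨ε, hε, hne⟩ := Pool.Agent.H845Z.BSAm.not_stable n hn
  obtain ⟨δ, hδ, hst⟩ := h ε hε
  obtain ⟨N, a, b, c, hN, h1, h2, h3⟩ := hne δ hδ
  have h2' : hamming (a⁻¹ * c * a * (c ^ n)⁻¹) 1 < δ := by
    have := D_mul_right (c ^ n)⁻¹ (a⁻¹ * c * a) (c ^ n)
    rw [mul_inv_cancel] at this
    rw [← this] at h2
    exact h2
  obtain ⟨b', a', c', g1, g2, eb, ea, ec⟩ := hst N hN b a c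
    (by rw [h1, mul_inv_cancel]; simpa [hamming] using hδ) h2'
  rcases h3 a' b' c' (mul_inv_eq_one.mp g1) (mul_inv_eq_one.mp g2) with h4 | h4 | h4
  · exact absurd ea (not_lt.mpr h4)
  · exact absurd eb (not_lt.mpr h4)
  · exact absurd ec (not_lt.mpr h4)

end Pool.Agent.Results.MP_5939ed_al.ANotStableAllN
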